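import Pool.Agent.H23.RDD.Targets

set_option autoImplicit false

/-! Row LB of the board rdd (MP_c65535_nt): a Frobenius congruence for the coefficients gives one
for a root. -/

namespace Pool.Agent.H79.RDD

open NumberField Height Finset Polynomial Pool.Agent.H24.RD Pool.Agent.H23.RDD

section

variable {K : Type*} [Field K] (w : AbsoluteValue K ℝ) (hw : IsNonarchimedean w)

include hw

theorem na_sub (x y : K) : w (x - y) ≤ max (w x) (w y) := by
  have h := hw x (-y)
  rwa [AbsoluteValue.map_neg, ← sub_eq_add_neg] at h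

theorem na_sum {ι : Type*} (s : Finset ι) (x : ι → K) (B : ℝ) (hB : 0 ≤ B)
    (h : ∀ i ∈ s, w (x i) ≤ B) : w (∑ i ∈ s, x i) ≤ B := by
  classical
  induction s using Finset.induction_on with
  | empty => simpa using hB
  | insert a s ha ih =>
    rw [Finset.sum_insert ha]
    refine (hw _ _).trans (max_le (h a (Finset.mem_insert_self a s)) (ih fun i hi => ?_))
    exact h i (Finset.mem_insert_of_mem hi)

theorem gauss {ι : Type*} (s : Finset ι) (z : ι → K) (k : ℕ) :
    w ((∏ j ∈ s, (X - C (z j))).coeff k) ≤ ∏ j ∈ s, max (w (z j)) 1 := by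
  classical
  induction s using Finset.induction_on generalizing k with
  | empty =>
    rw [Finset.prod_empty, Finset.prod_empty, coeff_one]
    split_ifs <;> simp
  | insert a s ha ih =>
    have hp : 0 ≤ ∏ j ∈ s, max (w (z j)) 1 :=
      Finset.prod_nonneg fun j _ => zero_le_one.trans (le_max_right _ _)
    rw [Finset.prod_insert ha, Finset.prod_insert ha, sub_mul, coeff_sub, coeff_C_mul]
    have h1 : w ((X * ∏ j ∈ s, (X - C (z j))).coeff k) ≤ ∏ j ∈ s, max (w (z j)) 1 := by
      cases k with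
      | zero => simpa using hp
      | succ k => rw [coeff_X_mul]; exact ih k
    have h2 : w (z a * (∏ j ∈ s, (X - C (z j))).coeff k) ≤ w (z a) * ∏ j ∈ s, max (w (z j)) 1 := by
      rw [map_mul]
      exact mul_le_mul_of_nonneg_left (ih k) (AbsoluteValue.nonneg _ _)
    refine (na_sub w hw _ _).trans (max_le (h1.trans ?_) (h2.trans ?_))
    · exact le_mul_of_one_le_left hp (le_max_right _ _)
    · exact mul_le_mul_of_nonneg_right (le_max_left _ _) hp

/-- The ring of integers of a nonarchimedean absolute value. -/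
def Oring : Subring K where
  carrier := {x | w x ≤ 1}
  mul_mem' := by
    intro a b ha hb
    have ha' : w a ≤ 1 := ha
    have hb' : w b ≤ 1 := hb
    change w (a * b) ≤ 1
    rw [map_mul]
    exact mul_le_one₀ ha' (AbsoluteValue.nonneg _ _) hb'
  one_mem' := by
    change w 1 ≤ 1
    rw [map_one]
  add_mem' := by
    intro a b ha hb
    exact (hw a b).trans (max_le ha hb)
  zero_mem' := by
    change w 0 ≤ 1
    rw [map_zero]
    exact zero_le_one
  neg_mem' := by
    intro a ha
    change w (-a) ≤ 1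
    rw [AbsoluteValue.map_neg]
    exact ha

theorem fresh1 (l e : ℕ) (hl : l.Prime) (x y : K) (hx : w x ≤ 1) (hy : w y ≤ 1) :
    ∃ r : K, w r ≤ 1 ∧ (x + y) ^ (l ^ e) = x ^ (l ^ e) + y ^ (l ^ e) + l * r := by
  obtain ⟨r, hr⟩ := exists_add_pow_prime_pow_eq hl (⟨x, hx⟩ : Oring w hw) ⟨y, hy⟩ e
  refine ⟨x * y * r, ?_, ?_⟩
  · rw [map_mul, map_mul]
    have hr1 : w (r : K) ≤ 1 := r.2
    exact mul_le_one₀ (mul_le_one₀ hx (AbsoluteValue.nonneg _ _) hy) (AbsoluteValue.nonneg _ _) hr1
  · have := congrArg (Subtype.val) hr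
    simp only [Subring.coe_add, Subring.coe_mul, Subring.coe_pow, Subring.coe_natCast] at this
    rw [this]
    ring

theorem fresh (l e : ℕ) (hl : l.Prime) {ι : Type*} (s : Finset ι) (x : ι → K)
    (hx : ∀ i ∈ s, w (x i) ≤ 1) :
    w (∑ i ∈ s, x i ^ (l ^ e) - (∑ i ∈ s, x i) ^ (l ^ e)) ≤ w (l : K) := by
  classical
  induction s using Finset.induction_on with
  | empty =>
    rw [Finset.sum_empty, Finset.sum_empty, zero_pow (pow_ne_zero _ hl.ne_zero), sub_zero,
      map_zero]
    exact AbsoluteValue.nonneg _ _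
  | insert a s ha ih =>
    have hs : w (∑ i ∈ s, x i) ≤ 1 :=
      na_sum w hw s x 1 zero_le_one fun i hi => hx i (Finset.mem_insert_of_mem hi)
    obtain ⟨r, hr, he⟩ := fresh1 w hw l e hl (x a) (∑ i ∈ s, x i)
      (hx a (Finset.mem_insert_self a s)) hs
    rw [Finset.sum_insert ha, Finset.sum_insert ha, he]
    have e1 : x a ^ l ^ e + ∑ i ∈ s, x i ^ l ^ e -
        (x a ^ l ^ e + (∑ i ∈ s, x i) ^ l ^ e + (l : K) * r) =
        (∑ i ∈ s, x i ^ l ^ e - (∑ i ∈ s, x i) ^ l ^ e) - (l : K) * r := by ring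
    rw [e1]
    refine (na_sub w hw _ _).trans (max_le (ih fun i hi => hx i (Finset.mem_insert_of_mem hi)) ?_)
    rw [map_mul]
    exact mul_le_of_le_one_right (AbsoluteValue.nonneg _ _) hr

end

theorem step {M M' : Type*} [Field M] [Field M'] [Algebra M M'] (w : AbsoluteValue M' ℝ)
    (hw : IsNonarchimedean w) (l e : ℕ) (hl : l.Prime) (σ : M →+* M) (ε : ℝ) (hε0 : 0 < ε)
    (hε1 : ε < 1) (hlε : w (l : M') ≤ ε)
    (H : ∀ x : M, w (algebraMap M M' (σ x) - algebraMap M M' x ^ (l ^ e)) ≤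
      ε * (max (w (algebraMap M M' (σ x))) 1 * max (w (algebraMap M M' x ^ (l ^ e))) 1))
    (s : Finset ℕ) (a : ℕ → M) (y : ℕ → M') (ha : ∀ k ∈ s, w (algebraMap M M' (a k)) ≤ 1)
    (hy : ∀ k ∈ s, w (y k) ≤ 1) (h0 : ∑ k ∈ s, algebraMap M M' (a k) * y k = 0) :
    w (∑ k ∈ s, algebraMap M M' (σ (a k)) * y k ^ (l ^ e)) ≤ ε := by
  have hz : ∀ x : M, w (algebraMap M M' x) ≤ 1 →
      w (algebraMap M M' (σ x) - algebraMap M M' x ^ (l ^ e)) ≤ ε := by
    intro x hx
    have hxq : w (algebraMap M M' x ^ (l ^ e)) ≤ 1 := by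
      rw [map_pow]
      exact pow_le_one₀ (AbsoluteValue.nonneg _ _) hx
    have h1 := H x
    rw [max_eq_right hxq, mul_one] at h1
    rcases le_or_gt (w (algebraMap M M' (σ x))) 1 with hc | hc
    · rwa [max_eq_right hc, mul_one] at h1
    · exfalso
      rw [max_eq_left hc.le] at h1
      have h2 : w (algebraMap M M' (σ x)) ≤
          max (w (algebraMap M M' (σ x) - algebraMap M M' x ^ (l ^ e)))
            (w (algebraMap M M' x ^ (l ^ e))) := by
        have := hw (algebraMap M M' (σ x) - algebraMap M M' x ^ (l ^ e))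
          (algebraMap M M' x ^ (l ^ e))
        rwa [sub_add_cancel] at this
      rcases le_max_iff.1 h2 with h3 | h3
      · nlinarith
      · linarith
  have e1 : ∑ k ∈ s, algebraMap M M' (σ (a k)) * y k ^ (l ^ e) =
      ∑ k ∈ s, (algebraMap M M' (σ (a k)) - algebraMap M M' (a k) ^ (l ^ e)) * y k ^ (l ^ e) +
      (∑ k ∈ s, (algebraMap M M' (a k) * y k) ^ (l ^ e) -
        (∑ k ∈ s, algebraMap M M' (a k) * y k) ^ (l ^ e)) := by
    rw [h0, zero_pow (pow_ne_zero _ hl.ne_zero), sub_zero, ← Finset.sum_add_distrib]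
    refine Finset.sum_congr rfl fun k _ => ?_
    ring
  rw [e1]
  refine (hw _ _).trans (max_le ?_ ((fresh w hw l e hl s _ ?_).trans hlε))
  · refine na_sum w hw s _ ε hε0.le fun k hk => ?_
    rw [map_mul, map_pow]
    have h1 := hz (a k) (ha k hk)
    have h2 : w (y k) ^ (l ^ e) ≤ 1 := pow_le_one₀ (AbsoluteValue.nonneg _ _) (hy k hk)
    exact (mul_le_of_le_one_right (AbsoluteValue.nonneg _ _) h2).trans h1
  · intro k hk
    rw [map_mul]
    exact mul_le_one₀ (ha k hk) (AbsoluteValue.nonneg _ _) (hy k hk)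

/-- One factor of a small product is small. -/
theorem pick {ι : Type*} [Fintype ι] (x T : ι → ℝ) (hT : ∀ j, 0 < T j) (d : ℕ)
    (hd : Fintype.card ι ≤ d) (hn : 0 < Fintype.card ι) (ε : ℝ) (hε0 : 0 < ε) (hε1 : ε < 1)
    (h : ∏ j, x j ≤ ε * ∏ j, T j) : ∃ j, x j ≤ ε ^ (1 / (d : ℝ)) * T j := by
  by_contra hcon
  push Not at hcon
  have hpos : 0 < ε ^ (1 / (d : ℝ)) := Real.rpow_pos_of_pos hε0 _
  have : Nonempty ι := Fintype.card_pos_iff.1 hn
  have h1 : ∏ j, (ε ^ (1 / (d : ℝ)) * T j) < ∏ j, x j :=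
    Finset.prod_lt_prod_of_nonempty (fun j _ => mul_pos hpos (hT j)) (fun j _ => hcon j)
      Finset.univ_nonempty
  rw [Finset.prod_mul_distrib, Finset.prod_const, Finset.card_univ] at h1
  have hTp : 0 < ∏ j, T j := Finset.prod_pos fun j _ => hT j
  have hd0 : 0 < d := lt_of_lt_of_le hn hd
  have h2 : ε ≤ (ε ^ (1 / (d : ℝ))) ^ Fintype.card ι := by
    have e1 : (ε ^ (1 / (d : ℝ))) ^ Fintype.card ι =
        ε ^ ((Fintype.card ι : ℝ) / d) := by
      rw [← Real.rpow_natCast, ← Real.rpow_mul hε0.le]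
      congr 1
      ring
    rw [e1]
    have h3 : (Fintype.card ι : ℝ) / d ≤ 1 := by
      rw [div_le_one (by exact_mod_cast hd0)]
      exact_mod_cast hd
    calc ε = ε ^ (1 : ℝ) := (Real.rpow_one ε).symm
      _ ≤ _ := Real.rpow_le_rpow_of_exponent_ge hε0 hε1.le h3
  have h4 := mul_le_mul_of_nonneg_right h2 hTp.le
  linarith

theorem pf_LB : T_LB := by
  intro M M' _ _ _ w hw l e hl σ ε hε0 hε1 hlε H d hd f hf β hβ ι _ hcard z hP
  set φ := algebraMap M M' with hφ
  have hdegP : ((f.map σ).map φ).natDegree = f.natDegree := by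
    rw [natDegree_map, natDegree_map]
  have hn : f.natDegree = Fintype.card ι := by
    rw [← hdegP, hP, natDegree_finsetProd_X_sub_C_eq_card]
    simp
  have hn0 : f.natDegree ≠ 0 := by
    intro h
    have := hf.natDegree_eq_zero.1 h
    rw [this] at hβ
    simp at hβ
  obtain ⟨k0, hk0, hmax⟩ := Finset.exists_max_image (range (f.natDegree + 1))
    (fun k => w (φ (f.coeff k))) ⟨_, Finset.mem_range.2 (Nat.succ_pos _)⟩
  have h1 : 1 ≤ w (φ (f.coeff k0)) := by
    have := hmax f.natDegree (Finset.mem_range.2 (Nat.lt_succ_self _))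
    rw [hf.coeff_natDegree, map_one, map_one] at this
    exact this
  have hw0 : 0 < w (φ (f.coeff k0)) := by linarith
  have hφ0 : φ (f.coeff k0) ≠ 0 := (AbsoluteValue.pos_iff w).1 hw0
  have hf0 : f.coeff k0 ≠ 0 := fun h => hφ0 (by rw [h, map_zero])
  have hσ0 : φ (σ (f.coeff k0)) ≠ 0 := by
    rw [_root_.map_ne_zero, _root_.map_ne_zero]; exact hf0
  set a : ℕ → M := fun k => f.coeff k / f.coeff k0 with ha
  have ha1 : ∀ k ∈ range (f.natDegree + 1), w (φ (a k)) ≤ 1 := by
    intro k hk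
    rw [ha]
    simp only
    rw [map_div₀, map_div₀]
    exact (div_le_one hw0).2 (hmax k hk)
  have hsum : ∑ k ∈ range (f.natDegree + 1), φ (f.coeff k) * β ^ k = 0 := by
    rw [aeval_eq_sum_range] at hβ
    rw [← hβ]
    refine Finset.sum_congr rfl fun k _ => ?_
    rw [Algebra.smul_def]
  -- the main estimate
  have hB : w (∑ k ∈ range (f.natDegree + 1), φ (σ (a k)) * (β ^ (l ^ e)) ^ k) ≤
      ε * max (w (β ^ (l ^ e))) 1 ^ f.natDegree := by
    rcases le_or_gt (w β) 1 with hc | hc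
    · have hst := step w hw l e hl σ ε hε0 hε1 hlε H (range (f.natDegree + 1)) a
        (fun k => β ^ k) ha1 (fun k _ => by
          rw [map_pow]; exact pow_le_one₀ (AbsoluteValue.nonneg _ _) hc) (by
          have : ∑ k ∈ range (f.natDegree + 1), algebraMap M M' (a k) * β ^ k =
              (φ (f.coeff k0))⁻¹ * ∑ k ∈ range (f.natDegree + 1), φ (f.coeff k) * β ^ k := by
            rw [Finset.mul_sum]
            refine Finset.sum_congr rfl fun k _ => ?_
            rw [ha]
            simp only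
            rw [map_div₀]
            ring
          rw [this, hsum, mul_zero])
      have e1 : ∑ k ∈ range (f.natDegree + 1), φ (σ (a k)) * (β ^ (l ^ e)) ^ k =
          ∑ k ∈ range (f.natDegree + 1), algebraMap M M' (σ (a k)) * (β ^ k) ^ (l ^ e) := by
        refine Finset.sum_congr rfl fun k _ => ?_
        rw [← pow_mul, ← pow_mul, mul_comm (l ^ e) k]
      rw [e1]
      refine hst.trans ?_
      exact le_mul_of_one_le_right hε0.le (one_le_pow₀ (le_max_right _ _))
    · have hβ0 : β ≠ 0 := by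
        intro h
        rw [h, map_zero] at hc
        linarith
      have hu : w β⁻¹ ≤ 1 := by
        rw [map_inv₀]
        exact inv_le_one_of_one_le₀ hc.le
      have hst := step w hw l e hl σ ε hε0 hε1 hlε H (range (f.natDegree + 1)) a
        (fun k => (β⁻¹) ^ (f.natDegree - k)) ha1 (fun k _ => by
          rw [map_pow]; exact pow_le_one₀ (AbsoluteValue.nonneg _ _) hu) (by
          have : ∑ k ∈ range (f.natDegree + 1), algebraMap M M' (a k) * β⁻¹ ^ (f.natDegree - k) =
              (φ (f.coeff k0))⁻¹ * β⁻¹ ^ f.natDegree *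
                ∑ k ∈ range (f.natDegree + 1), φ (f.coeff k) * β ^ k := by
            rw [Finset.mul_sum]
            refine Finset.sum_congr rfl fun k hk => ?_
            rw [ha]
            simp only
            rw [map_div₀]
            have hk' : k ≤ f.natDegree := Nat.lt_succ_iff.1 (Finset.mem_range.1 hk)
            have e2 : β⁻¹ ^ f.natDegree = β⁻¹ ^ (f.natDegree - k) * β⁻¹ ^ k := by
              rw [← pow_add, Nat.sub_add_cancel hk']
            rw [e2]
            have e3 : β⁻¹ ^ k * β ^ k = 1 := by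
              rw [← mul_pow, inv_mul_cancel₀ hβ0, one_pow]
            calc φ (f.coeff k) / φ (f.coeff k0) * β⁻¹ ^ (f.natDegree - k)
                = (φ (f.coeff k0))⁻¹ * β⁻¹ ^ (f.natDegree - k) * φ (f.coeff k) * 1 := by ring
              _ = (φ (f.coeff k0))⁻¹ * β⁻¹ ^ (f.natDegree - k) * φ (f.coeff k) *
                  (β⁻¹ ^ k * β ^ k) := by rw [e3]
              _ = _ := by ring
          rw [this, hsum, mul_zero])
      have e1 : ∑ k ∈ range (f.natDegree + 1), φ (σ (a k)) * (β ^ (l ^ e)) ^ k =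
          (β ^ (l ^ e)) ^ f.natDegree * ∑ k ∈ range (f.natDegree + 1),
            algebraMap M M' (σ (a k)) * (β⁻¹ ^ (f.natDegree - k)) ^ (l ^ e) := by
        rw [Finset.mul_sum]
        refine Finset.sum_congr rfl fun k hk => ?_
        have hk' : k ≤ f.natDegree := Nat.lt_succ_iff.1 (Finset.mem_range.1 hk)
        have e2 : (β ^ (l ^ e)) ^ f.natDegree =
            (β ^ (l ^ e)) ^ k * (β ^ (l ^ e)) ^ (f.natDegree - k) := by
          rw [← pow_add, Nat.add_sub_cancel' hk']
        have e3 : (β ^ (l ^ e)) ^ (f.natDegree - k) * (β⁻¹ ^ (f.natDegree - k)) ^ (l ^ e) = 1 := by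
          rw [← pow_mul, ← pow_mul, mul_comm (l ^ e), ← mul_pow, mul_inv_cancel₀ hβ0, one_pow]
        rw [e2]
        calc φ (σ (a k)) * (β ^ (l ^ e)) ^ k = φ (σ (a k)) * (β ^ (l ^ e)) ^ k * 1 := by ring
          _ = φ (σ (a k)) * (β ^ (l ^ e)) ^ k *
            ((β ^ (l ^ e)) ^ (f.natDegree - k) * (β⁻¹ ^ (f.natDegree - k)) ^ (l ^ e)) := by
              rw [e3]
          _ = _ := by ring
      rw [e1, map_mul, map_pow, mul_comm]
      refine mul_le_mul hst (pow_le_pow_left₀ (AbsoluteValue.nonneg _ _) (le_max_left _ _) _)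
        (pow_nonneg (AbsoluteValue.nonneg _ _) _) hε0.le
  -- the sum is a multiple of the product
  have hev : ∑ k ∈ range (f.natDegree + 1), φ (σ (a k)) * (β ^ (l ^ e)) ^ k =
      (φ (σ (f.coeff k0)))⁻¹ * ∏ j, (β ^ (l ^ e) - z j) := by
    have e1 : ∏ j, (β ^ (l ^ e) - z j) = ((f.map σ).map φ).eval (β ^ (l ^ e)) := by
      rw [hP, eval_prod]
      simp
    rw [e1, eval_eq_sum_range, hdegP, Finset.mul_sum]
    refine Finset.sum_congr rfl fun k _ => ?_
    rw [coeff_map, coeff_map, ha]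
    simp only
    rw [map_div₀, map_div₀]
    ring
  rw [hev, map_mul, map_inv₀, map_prod] at hB
  have hσw : 0 < w (φ (σ (f.coeff k0))) := (AbsoluteValue.pos_iff w).2 hσ0
  have hG : w (φ (σ (f.coeff k0))) ≤ ∏ j, max (w (z j)) 1 := by
    have := gauss w hw Finset.univ z k0
    rw [← hP, coeff_map, coeff_map] at this
    exact this
  have hfin : ∏ j, w (β ^ (l ^ e) - z j) ≤
      ε * ∏ j, (max (w (β ^ (l ^ e))) 1 * max (w (z j)) 1) := by
    rw [inv_mul_le_iff₀ hσw] at hB
    refine hB.trans ?_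
    rw [Finset.prod_mul_distrib, Finset.prod_const, Finset.card_univ, ← hn]
    have hp : 0 ≤ ε * max (w (β ^ (l ^ e))) 1 ^ f.natDegree :=
      mul_nonneg hε0.le (pow_nonneg (zero_le_one.trans (le_max_right _ _)) _)
    calc w (φ (σ (f.coeff k0))) * (ε * max (w (β ^ (l ^ e))) 1 ^ f.natDegree)
        ≤ (∏ j, max (w (z j)) 1) * (ε * max (w (β ^ (l ^ e))) 1 ^ f.natDegree) :=
          mul_le_mul_of_nonneg_right hG hp
      _ = _ := by ring
  exact pick (fun j => w (β ^ (l ^ e) - z j)) (fun j => max (w (β ^ (l ^ e))) 1 * max (w (z j)) 1)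
    (fun j => mul_pos (lt_of_lt_of_le zero_lt_one (le_max_right _ _))
      (lt_of_lt_of_le zero_lt_one (le_max_right _ _))) d hcard
    (by rw [← hn]; exact Nat.pos_of_ne_zero hn0) ε hε0 hε1 hfin

end Pool.Agent.H79.RDD
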