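import Pool.Agent.H23.RDD.Targets

set_option autoImplicit false

/-! Row MBD of the board rdd (MP_c65535_nt): the theorem for independent generators. -/

namespace Pool.Agent.H79.RDD

open NumberField Height Finset Polynomial Pool.Agent.H24.RD Pool.Agent.H23.RDD

theorem dv_pow {F Ω : Type} [Field F] [Field Ω] [Algebra F Ω] {r : ℕ} {γ : Fin r → F} {g : Ω}
    (hg : g ∈ Dv F Ω γ) (e : ℕ) : g ^ e ∈ Dv F Ω γ := by
  obtain ⟨h0, n, hn, x, hx⟩ := hg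
  refine ⟨pow_ne_zero _ h0, n, hn, fun i => x i * e, ?_⟩
  rw [← pow_mul, mul_comm, pow_mul, hx, ← Finset.prod_pow]
  refine Finset.prod_congr rfl fun i _ => ?_
  rw [zpow_mul, zpow_natCast]

theorem dv_of_pow {F Ω : Type} [Field F] [Field Ω] [Algebra F Ω] {r : ℕ} {γ : Fin r → F} {g : Ω}
    (h0 : g ≠ 0) (e : ℕ) (he : 0 < e) (hg : g ^ e ∈ Dv F Ω γ) : g ∈ Dv F Ω γ := by
  obtain ⟨-, n, hn, x, hx⟩ := hg
  exact ⟨h0, e * n, Nat.mul_pos he hn, x, by rw [pow_mul]; exact hx⟩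

theorem pf_MBD : T_HB → T_RED → T_DSD → T_FIND → T_MBD := by
  intro hHB hRED hDSD hFIND F Ω _ _ _ _ _ _ _ r γ hγ S hS hSne d hd
  have : Algebra.IsAlgebraic ℚ Ω := Algebra.IsAlgebraic.trans ℚ F Ω
  obtain ⟨-, -, -, hpow, -, -, -⟩ := hHB Ω
  obtain ⟨ℓ, hℓ⟩ := hSne
  obtain ⟨N0, δ, hN0, hδ, h1⟩ := hDSD F Ω r γ hγ S hS d hd
  obtain ⟨c, hc, h2⟩ := hFIND F Ω r γ hγ ℓ N0 d (hS ℓ hℓ) hN0 hd
  have he : (0 : ℝ) < (d.factorial : ℝ) := by exact_mod_cast d.factorial_pos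
  refine ⟨min δ c / d.factorial, div_pos (lt_min hδ hc) he, ?_⟩
  intro N K hN hK hKS β g hβ hCj hg hβg
  by_contra hcon
  push Not at hcon
  rw [lt_div_iff₀ he] at hcon
  obtain ⟨N₁, hN₁, hKN₁, hCj₁, hRed₁⟩ := hRED F Ω r γ hγ.1 N K d hN hK hd β hβ hCj
  have hrep : RepD F Ω γ N₁ K d ((β * g) ^ d.factorial) :=
    ⟨β ^ d.factorial, pow_ne_zero _ hβ, hCj₁, hRed₁, g ^ d.factorial, dv_pow hg _, mul_pow _ _ _⟩
  have hh : absLogHeight₁ ((β * g) ^ d.factorial) = absLogHeight₁ (β * g) * d.factorial := by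
    rw [hpow, mul_comm]
  rw [← hh] at hcon
  obtain ⟨N', h3, h4⟩ := h1 N₁ K hN₁ hKN₁ hKS _ hrep (hcon.trans_le (min_le_left _ _))
  have h5 : (β * g) ^ d.factorial ∉ Dv F Ω γ := fun h =>
    hβg (dv_of_pow (mul_ne_zero hβ hg.1) _ d.factorial_pos h)
  have h6 := h2 N' (h3 ℓ hℓ) _ h4 h5
  exact absurd (hcon.trans_le (min_le_right _ _)) (not_lt.2 h6)

end Pool.Agent.H79.RDD
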